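import Pool.Agent.Run7.h380.TP.Circuit

set_option autoImplicit false

/-!
# The pivoting algorithm
-/

namespace Run7.h380.TP

open Finset

variable {k n : ℕ}

/-- `u` is the basic solution of `A x = b` for the set `I` of columns. -/
def Basic (A : Matrix (Fin k) (Fin n) ℝ) (b : Fin k → ℝ) (I : Finset (Fin n))
    (u : Fin n → ℝ) : Prop :=
  A.mulVec u = b ∧ ∀ i ∉ I, u i = 0

/-- `w` is the direction of the column `l`, with respect to the set `I` of columns. -/
def Direction (A : Matrix (Fin k) (Fin n) ℝ) (I : Finset (Fin n)) (l : Fin n)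
    (w : Fin n → ℝ) : Prop :=
  A.mulVec w = 0 ∧ w l = 1 ∧ ∀ i, i ∉ I → i ≠ l → w i = 0

/-- `q` is the first column after `i` which is not in `I`. -/
def NextFree (I : Finset (Fin n)) (i q : Fin n) : Prop :=
  i < q ∧ q ∉ I ∧ ∀ l, i < l → l < q → l ∈ I

/-- The ratio test: `i` is a column of `I` after `j` for which `u i` and `w i` are negative, with
the largest ratio `u i / w i`. -/
def Ratio (I : Finset (Fin n)) (j : Fin n) (u w : Fin n → ℝ) (i : Fin n) : Prop :=
  i ∈ I ∧ j < i ∧ u i < 0 ∧ w i < 0 ∧
    ∀ e ∈ I, j < e → u e < 0 → w e < 0 → u e / w e ≤ u i / w i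

/-- Gale's condition: after every column which is not in `I` there is an even number of columns
of `I`. -/
def Gale (I : Finset (Fin n)) : Prop := ∀ l ∉ I, Even (above I l)

theorem direction_unique {A : Matrix (Fin k) (Fin n) ℝ} (hA : PosMinors A) {I : Finset (Fin n)}
    (hI : I.card = k) {l : Fin n} {w w' : Fin n → ℝ} (h : Direction A I l w)
    (h' : Direction A I l w') : w = w' := by
  have h1 : w - w' = 0 := by
    apply indep hA hI
    · rw [Matrix.mulVec_sub, h.1, h'.1, sub_zero]
    · intro i hi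
      by_cases hil : i = l
      · subst hil
        simp [h.2.1, h'.2.1]
      · simp [h.2.2 i hi hil, h'.2.2 i hi hil]
  exact sub_eq_zero.1 h1

theorem basic_unique {A : Matrix (Fin k) (Fin n) ℝ} (hA : PosMinors A) {b : Fin k → ℝ}
    {I : Finset (Fin n)} (hI : I.card = k) {u u' : Fin n → ℝ} (h : Basic A b I u)
    (h' : Basic A b I u') : u = u' := by
  have h1 : u - u' = 0 := by
    apply indep hA hI
    · rw [Matrix.mulVec_sub, h.1, h'.1, sub_self]
    · intro i hi
      simp [h.2 i hi, h'.2 i hi]
  exact sub_eq_zero.1 h1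

theorem above_insert_self (I : Finset (Fin n)) (l : Fin n) :
    above (insert l I) l = above I l := by
  unfold above
  rw [filter_insert, if_neg (lt_irrefl l)]

theorem above_insert_of_lt {I : Finset (Fin n)} {i l : Fin n} (hl : l ∉ I) (h : i < l) :
    above (insert l I) i = above I i + 1 := by
  unfold above
  rw [filter_insert, if_pos h, card_insert_of_notMem]
  intro h'
  exact hl (mem_filter.1 h').1

theorem above_insert_of_gt {I : Finset (Fin n)} {i l : Fin n} (h : l < i) :
    above (insert l I) i = above I i := by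
  unfold above
  rw [filter_insert, if_neg (not_lt.2 h.le)]

theorem above_erase_of_le {I : Finset (Fin n)} {i l : Fin n} (h : i ≤ l) :
    above (I.erase i) l = above I l := by
  unfold above
  congr 1
  ext e
  simp only [mem_filter, mem_erase]
  constructor
  · rintro ⟨⟨_, h2⟩, h3⟩
    exact ⟨h2, h3⟩
  · rintro ⟨h2, h3⟩
    exact ⟨⟨fun h4 => absurd (h4 ▸ h3) (not_lt.2 h), h2⟩, h3⟩

theorem above_erase_of_gt {I : Finset (Fin n)} {i l : Fin n} (hi : i ∈ I) (h : l < i) :
    above (I.erase i) l + 1 = above I l := by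
  have h1 : insert i (I.erase i) = I := insert_erase hi
  have h2 := above_insert_of_lt (I := I.erase i) (i := l) (l := i) (notMem_erase i I) h
  rw [h1] at h2
  exact h2.symm

/-- directions exist; their signs; and the reduced costs -/
theorem direction_exists {A : Matrix (Fin k) (Fin n) ℝ} (hA : PosMinors A) {I : Finset (Fin n)}
    (hI : I.card = k) (hG : Gale I) {l : Fin n} (hl : l ∉ I) : ∃ w, Direction A I l w ∧
      (∀ i ∈ I, l < i → 0 < (-1) ^ above I i * w i) ∧
      (∀ i ∈ I, i < l → 0 < (-1) ^ (above I i + 1) * w i) ∧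
      ∀ c, PosMinors (addRow A c) → 0 < ∑ t, c t * w t := by
  have hT : (insert l I).card = k + 1 := by rw [card_insert_of_notMem hl, hI]
  obtain ⟨w, h1, h2, h3⟩ := circuit hA (insert l I) hT
  have hwl : 0 < w l := by
    have := h2 l (mem_insert_self _ _)
    rw [above_insert_self, (hG l hl).neg_one_pow, one_mul] at this
    exact this
  have hker : A.mulVec w = 0 := by
    ext i
    have h4 := h3 (A i)
    have h5 : ((addRow A (A i)).submatrix id ((insert l I).orderEmbOfFin hT)).det = 0 := by
      apply Matrix.det_zero_of_row_eq (i := i.castSucc) (j := Fin.last k)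
      · exact (Fin.castSucc_lt_last i).ne
      · ext j
        simp only [Matrix.submatrix_apply, id_eq]
        rw [addRow_last, addRow_castSucc]
    rw [h5] at h4
    exact h4
  refine ⟨fun t => w t / w l, ⟨?_, div_self hwl.ne', ?_⟩, ?_, ?_, ?_⟩
  · have : (fun t => w t / w l) = (w l)⁻¹ • w := by
      ext t
      simp only [Pi.smul_apply, smul_eq_mul]
      field_simp
    rw [this, Matrix.mulVec_smul, hker, smul_zero]
  · intro i hi hil
    have : w i = 0 := h1 i (by simp [hi, hil])
    simp [this]
  · intro i hi hli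
    have := h2 i (mem_insert_of_mem hi)
    rw [above_insert_of_gt hli] at this
    have h5 : (-1 : ℝ) ^ above I i * (w i / w l) = ((-1) ^ above I i * w i) / w l := by ring
    rw [h5]
    exact div_pos this hwl
  · intro i hi hli
    have := h2 i (mem_insert_of_mem hi)
    rw [above_insert_of_lt hl hli] at this
    have h5 : (-1 : ℝ) ^ (above I i + 1) * (w i / w l) = ((-1) ^ (above I i + 1) * w i) / w l := by
      ring
    rw [h5]
    exact div_pos this hwl
  · intro c hc
    have h5 : ∑ t, c t * (w t / w l) = (∑ t, c t * w t) / w l := by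
      rw [sum_div]
      apply sum_congr rfl
      intro t _
      ring
    rw [h5, h3 c]
    exact div_pos (hc _ (OrderEmbedding.strictMono _)) hwl

/-- every solution is the basic one plus a combination of directions -/
theorem expand {A : Matrix (Fin k) (Fin n) ℝ} (hA : PosMinors A) {b : Fin k → ℝ}
    {I : Finset (Fin n)} (hI : I.card = k) {u z : Fin n → ℝ} (hu : Basic A b I u)
    (hz : A.mulVec z = b) (W : Fin n → Fin n → ℝ) (hW : ∀ l ∉ I, Direction A I l (W l)) :
    z = u + ∑ l ∈ Iᶜ, z l • W l := by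
  have h1 : z - u - ∑ l ∈ Iᶜ, z l • W l = 0 := by
    apply indep hA hI
    · rw [Matrix.mulVec_sub, Matrix.mulVec_sub, hz, hu.1, sub_self, zero_sub, neg_eq_zero,
        Matrix.mulVec_sum]
      apply sum_eq_zero
      intro l hl
      rw [Matrix.mulVec_smul, (hW l (mem_compl.1 hl)).1, smul_zero]
    · intro i hi
      simp only [Pi.sub_apply, hu.2 i hi, sub_zero, Finset.sum_apply, Pi.smul_apply, smul_eq_mul]
      rw [sum_eq_single i]
      · rw [(hW i hi).2.1, mul_one, sub_self]
      · intro l hl hli
        rw [(hW l (mem_compl.1 hl)).2.2 i hi (Ne.symm hli), mul_zero]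
      · intro h
        exact absurd (mem_compl.2 hi) h
  have h2 : z - (u + ∑ l ∈ Iᶜ, z l • W l) = 0 := by
    rw [← h1]
    abel
  exact sub_eq_zero.1 h2

/-- certificate of infeasibility -/
theorem infeasible {A : Matrix (Fin k) (Fin n) ℝ} (hA : PosMinors A) {b : Fin k → ℝ}
    {I : Finset (Fin n)} (hI : I.card = k) (hG : Gale I) {u : Fin n → ℝ} (hu : Basic A b I u)
    {i : Fin n} (hi : i ∈ I) (hneg : u i < 0)
    (hs : ∀ l ∉ I, (l < i → Odd (above I i)) ∧ (i < l → Even (above I i))) :
    ¬ ∃ z : Fin n → ℝ, (∀ t, 0 ≤ z t) ∧ A.mulVec z = b := by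
  rintro ⟨z, hz0, hz⟩
  choose! W hW using fun l (hl : l ∉ I) => direction_exists hA hI hG hl
  have h1 := expand hA hI hu hz W fun l hl => (hW l hl).1
  have h2 : z i = u i + ∑ l ∈ Iᶜ, z l * W l i := by
    conv_lhs => rw [h1]
    simp [Finset.sum_apply]
  have h3 : ∑ l ∈ Iᶜ, z l * W l i ≤ 0 := by
    apply sum_nonpos
    intro l hl
    have hl' := mem_compl.1 hl
    apply mul_nonpos_of_nonneg_of_nonpos (hz0 l)
    rcases lt_trichotomy l i with h | h | h
    · have h4 := (hW l hl').2.1 i hi h
      rw [((hs l hl').1 h).neg_one_pow] at h4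
      linarith
    · exact absurd (h ▸ hi) hl'
    · have h4 := (hW l hl').2.2.1 i hi h
      rw [(((hs l hl').2 h).add_one).neg_one_pow] at h4
      linarith
  have := hz0 i
  linarith

/-- optimality -/
theorem optimal {A : Matrix (Fin k) (Fin n) ℝ} (hA : PosMinors A) {b : Fin k → ℝ}
    {I : Finset (Fin n)} (hI : I.card = k) (hG : Gale I) {u : Fin n → ℝ} (hu : Basic A b I u)
    {c : Fin n → ℝ} (hc : PosMinors (addRow A c)) {z : Fin n → ℝ} (hz0 : ∀ t, 0 ≤ z t)
    (hz : A.mulVec z = b) : ∑ t, c t * u t ≤ ∑ t, c t * z t := by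
  choose! W hW using fun l (hl : l ∉ I) => direction_exists hA hI hG hl
  have h1 := expand hA hI hu hz W fun l hl => (hW l hl).1
  have h2 : ∑ t, c t * z t = ∑ t, c t * u t + ∑ l ∈ Iᶜ, z l * ∑ t, c t * W l t := by
    have h3 : ∀ t, c t * z t = c t * u t + ∑ l ∈ Iᶜ, z l * (c t * W l t) := by
      intro t
      have h4 : z t = u t + ∑ l ∈ Iᶜ, z l * W l t := by
        conv_lhs => rw [h1]
        simp [Finset.sum_apply]
      conv_lhs => rw [h4]
      rw [mul_add, mul_sum]
      congr 1
      apply sum_congr rfl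
      intro l _
      ring
    rw [sum_congr rfl fun t _ => h3 t, sum_add_distrib]
    congr 1
    rw [sum_comm]
    apply sum_congr rfl
    intro l _
    rw [mul_sum]
  rw [h2]
  have h3 : 0 ≤ ∑ l ∈ Iᶜ, z l * ∑ t, c t * W l t :=
    sum_nonneg fun l hl => mul_nonneg (hz0 l) ((hW l (mem_compl.1 hl)).2.2.2 c hc).le
  linarith

end Run7.h380.TP
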