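import Mathlib

set_option autoImplicit false

/-!
# Circuits of a matrix with positive maximal minors
-/

namespace Run7.h380.TP

open Finset

variable {k n : ℕ}

/-- All maximal minors of the `k × n` matrix `A` (with the columns in their order) are positive. -/
def PosMinors (A : Matrix (Fin k) (Fin n) ℝ) : Prop :=
  ∀ f : Fin k → Fin n, StrictMono f → 0 < (A.submatrix id f).det

/-- The matrix `A` with the additional last row `c`. -/
def addRow (A : Matrix (Fin k) (Fin n) ℝ) (c : Fin n → ℝ) : Matrix (Fin (k + 1)) (Fin n) ℝ :=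
  Matrix.of fun i j => Fin.lastCases (motive := fun _ => ℝ) (c j) (fun r => A r j) i

theorem addRow_last (A : Matrix (Fin k) (Fin n) ℝ) (c : Fin n → ℝ) (j : Fin n) :
    addRow A c (Fin.last k) j = c j := by
  simp [addRow]

theorem addRow_castSucc (A : Matrix (Fin k) (Fin n) ℝ) (c : Fin n → ℝ) (i : Fin k) (j : Fin n) :
    addRow A c i.castSucc j = A i j := by
  simp [addRow]

/-- The number of elements of `I` greater than `l`. -/
def above (I : Finset (Fin n)) (l : Fin n) : ℕ := (I.filter fun e => l < e).card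

theorem above_emb {T : Finset (Fin n)} {r : ℕ} (hT : T.card = r + 1) (j : Fin (r + 1)) :
    above T (T.orderEmbOfFin hT j) = r - j := by
  have h : T.filter (fun e => T.orderEmbOfFin hT j < e) =
      (univ.filter fun i : Fin (r + 1) => j < i).map (T.orderEmbOfFin hT).toEmbedding := by
    ext e
    simp only [mem_filter, mem_map, mem_univ, true_and, RelEmbedding.coe_toEmbedding]
    constructor
    · rintro ⟨he, hlt⟩
      have : e ∈ Set.range (T.orderEmbOfFin hT) := by
        rw [Finset.range_orderEmbOfFin]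
        exact he
      obtain ⟨i, rfl⟩ := this
      exact ⟨i, (T.orderEmbOfFin hT).lt_iff_lt.1 hlt, rfl⟩
    · rintro ⟨i, hi, rfl⟩
      exact ⟨Finset.orderEmbOfFin_mem T hT i, (T.orderEmbOfFin hT).lt_iff_lt.2 hi⟩
  unfold above
  rw [h, card_map]
  have h2 : (univ.filter fun i : Fin (r + 1) => j < i) = Finset.Ioi j := by
    ext i
    simp
  rw [h2, Fin.card_Ioi]
  omega

/-- the circuit supported on a set of `k + 1` columns -/
theorem circuit {A : Matrix (Fin k) (Fin n) ℝ} (hA : PosMinors A) (T : Finset (Fin n))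
    (hT : T.card = k + 1) : ∃ w : Fin n → ℝ, (∀ t ∉ T, w t = 0) ∧
      (∀ t ∈ T, 0 < (-1) ^ above T t * w t) ∧
      ∀ c : Fin n → ℝ, ∑ t, c t * w t =
        ((addRow A c).submatrix id (T.orderEmbOfFin hT)).det := by
  classical
  obtain ⟨f, hf⟩ : ∃ f, f = T.orderEmbOfFin hT := ⟨_, rfl⟩
  set D : Fin (k + 1) → ℝ := fun j => (A.submatrix id (fun i => f (j.succAbove i))).det with hD
  have hDpos : ∀ j, 0 < D j := by
    intro j
    apply hA
    intro a b hab
    exact f.strictMono (Fin.strictMono_succAbove j hab)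
  refine ⟨fun t => ∑ j : Fin (k + 1), if f j = t then (-1) ^ (k - (j : ℕ)) * D j else 0, ?_, ?_, ?_⟩
  · intro t ht
    apply sum_eq_zero
    intro j _
    rw [if_neg]
    rintro rfl
    rw [hf] at ht
    exact ht (Finset.orderEmbOfFin_mem T hT j)
  · intro t ht
    have : t ∈ Set.range f := by
      rw [hf, Finset.range_orderEmbOfFin]
      exact ht
    obtain ⟨j, rfl⟩ := this
    have h1 : (∑ i : Fin (k + 1), if f i = f j then (-1 : ℝ) ^ (k - (i : ℕ)) * D i else 0) =
        (-1) ^ (k - (j : ℕ)) * D j := by
      rw [sum_eq_single j]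
      · rw [if_pos rfl]
      · intro i _ hij
        rw [if_neg]
        exact fun h => hij (f.injective h)
      · intro h
        exact absurd (mem_univ j) h
    show 0 < (-1 : ℝ) ^ above T (f j) *
      (∑ i : Fin (k + 1), if f i = f j then (-1 : ℝ) ^ (k - (i : ℕ)) * D i else 0)
    rw [h1, hf, above_emb hT j, ← mul_assoc, ← pow_add, ← two_mul, pow_mul]
    simp only [even_two, Even.neg_pow, one_pow, one_mul]
    exact hDpos j
  · intro c
    rw [Matrix.det_succ_row _ (Fin.last k), ← hf]
    have h2 : ∀ t, c t * (∑ j : Fin (k + 1), if f j = t then (-1 : ℝ) ^ (k - (j : ℕ)) * D j else 0) =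
        ∑ j : Fin (k + 1), if f j = t then c t * ((-1 : ℝ) ^ (k - (j : ℕ)) * D j) else 0 := by
      intro t
      rw [mul_sum]
      apply sum_congr rfl
      intro j _
      split_ifs
      · rfl
      · rw [mul_zero]
    simp_rw [h2]
    rw [sum_comm]
    apply sum_congr rfl
    intro j _
    rw [sum_ite_eq, if_pos (mem_univ _)]
    have h3 : ((addRow A c).submatrix id ⇑f).submatrix (Fin.last k).succAbove j.succAbove =
        A.submatrix id (fun i => f (j.succAbove i)) := by
      ext a b
      simp only [Matrix.submatrix_apply, id_eq, Fin.succAbove_last]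
      exact addRow_castSucc A c a _
    rw [h3]
    simp only [Matrix.submatrix_apply, id_eq, Fin.val_last]
    rw [addRow_last]
    have h4 : (-1 : ℝ) ^ (k + (j : ℕ)) = (-1) ^ (k - (j : ℕ)) := by
      have hj : (j : ℕ) ≤ k := by omega
      have : k + (j : ℕ) = (k - (j : ℕ)) + 2 * (j : ℕ) := by omega
      rw [this, pow_add, pow_mul]
      simp
    rw [h4]
    ring

/-- a vector of the kernel supported on `k` columns vanishes -/
theorem indep {A : Matrix (Fin k) (Fin n) ℝ} (hA : PosMinors A) {I : Finset (Fin n)}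
    (hI : I.card = k) {w : Fin n → ℝ} (hw : A.mulVec w = 0) (hs : ∀ i ∉ I, w i = 0) : w = 0 := by
  classical
  obtain ⟨f, hf⟩ : ∃ f, f = I.orderEmbOfFin hI := ⟨_, rfl⟩
  have hd : (A.submatrix id f).det ≠ 0 := (hA f f.strictMono).ne'
  have h1 : (A.submatrix id f).mulVec (fun r => w (f r)) = 0 := by
    rw [← hw]
    ext i
    simp only [Matrix.mulVec, dotProduct, Matrix.submatrix_apply, id_eq]
    have h2 : ∑ x, A i x * w x = ∑ x ∈ I, A i x * w x := by
      symm
      apply sum_subset (subset_univ _)
      intro x _ hx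
      rw [hs x hx, mul_zero]
    rw [h2]
    have h3 : I = univ.map f.toEmbedding := by
      ext e
      simp only [mem_map, mem_univ, true_and, RelEmbedding.coe_toEmbedding]
      have := Finset.range_orderEmbOfFin I hI
      rw [← hf] at this
      constructor
      · intro he
        have : e ∈ Set.range f := by
          rw [this]
          exact he
        exact this
      · intro he
        have h4 : e ∈ Set.range f := he
        rw [this] at h4
        exact h4
    conv_rhs => rw [h3]
    rw [sum_map]
    rfl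
  have h2 := Matrix.eq_zero_of_mulVec_eq_zero hd h1
  ext e
  by_cases he : e ∈ I
  · have : e ∈ Set.range f := by
      rw [hf, Finset.range_orderEmbOfFin]
      exact he
    obtain ⟨r, rfl⟩ := this
    exact congrFun h2 r
  · exact hs e he

/-- basic solutions exist -/
theorem basic_exists {A : Matrix (Fin k) (Fin n) ℝ} (hA : PosMinors A) {I : Finset (Fin n)}
    (hI : I.card = k) (b : Fin k → ℝ) : ∃ u : Fin n → ℝ, A.mulVec u = b ∧ ∀ i ∉ I, u i = 0 := by
  classical
  obtain ⟨f, hf⟩ : ∃ f, f = I.orderEmbOfFin hI := ⟨_, rfl⟩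
  have hd : (A.submatrix id f).det ≠ 0 := (hA f f.strictMono).ne'
  obtain ⟨x, hx⟩ : ∃ x : Fin k → ℝ, (A.submatrix id f).mulVec x = b :=
    ⟨(A.submatrix id f)⁻¹.mulVec b, by
      rw [Matrix.mulVec_mulVec, Matrix.mul_nonsing_inv _ (Ne.isUnit hd), Matrix.one_mulVec]⟩
  refine ⟨fun t => ∑ r, if f r = t then x r else 0, ?_, ?_⟩
  · rw [← hx]
    ext i
    simp only [Matrix.mulVec, dotProduct, Matrix.submatrix_apply, id_eq, mul_sum, mul_ite, mul_zero]
    rw [sum_comm]
    apply sum_congr rfl
    intro r _
    rw [sum_ite_eq, if_pos (mem_univ _)]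
  · intro t ht
    apply sum_eq_zero
    intro r _
    rw [if_neg]
    rintro rfl
    rw [hf] at ht
    exact ht (Finset.orderEmbOfFin_mem I hI r)

end Run7.h380.TP
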