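import Pool.Agent.Run7.h380.TP.Algo

set_option autoImplicit false

/-!
# Runs of the pivoting algorithm: soundness, the number of pivots, existence
-/

namespace Run7.h380.TP

open Finset

variable {k n : ℕ}

/-- Runs of the algorithm. The state is `(j, I, act)`; `N` is the number of pivots, `o` the outcome:
`some I'` (the final basis) or `none` (no solution). -/
inductive Run (A : Matrix (Fin k) (Fin n) ℝ) (b : Fin k → ℝ) :
    ℕ → Finset (Fin n) → Bool → ℕ → Option (Finset (Fin n)) → Prop
  /-- all inequalities `x i ≥ 0` are satisfied by the basic solution -/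
  | done (I : Finset (Fin n)) : Run A b 0 I false 0 (some I)
  /-- the inequality `x j ≥ 0` is already satisfied -/
  | keep (j : ℕ) (hj : j < n) (I : Finset (Fin n)) (u : Fin n → ℝ) (N : ℕ)
      (o : Option (Finset (Fin n))) (hu : Basic A b I u) (h0 : 0 ≤ u ⟨j, hj⟩)
      (hr : Run A b j I false N o) : Run A b (j + 1) I false N o
  /-- the inequality `x j ≥ 0` is violated and `k - j` is odd -/
  | stopOdd (j : ℕ) (hj : j < n) (I : Finset (Fin n)) (u : Fin n → ℝ) (hu : Basic A b I u)
      (h0 : u ⟨j, hj⟩ < 0) (hodd : Odd (k - j)) : Run A b (j + 1) I false 0 none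
  /-- the inequality `x j ≥ 0` is violated and `k - j` is even: `j` leaves, the next free column
  enters -/
  | enter (j : ℕ) (hj : j < n) (I : Finset (Fin n)) (u : Fin n → ℝ) (q : Fin n) (N : ℕ)
      (o : Option (Finset (Fin n))) (hu : Basic A b I u) (h0 : u ⟨j, hj⟩ < 0)
      (heven : Even (k - j)) (hq : NextFree I ⟨j, hj⟩ q)
      (hr : Run A b j (insert q (I.erase ⟨j, hj⟩)) true N o) : Run A b (j + 1) I false (N + 1) o
  /-- the same, without a free column -/
  | stopEnter (j : ℕ) (hj : j < n) (I : Finset (Fin n)) (u : Fin n → ℝ) (hu : Basic A b I u)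
      (h0 : u ⟨j, hj⟩ < 0) (heven : Even (k - j)) (hfull : ∀ l, (⟨j, hj⟩ : Fin n) < l → l ∈ I) :
      Run A b (j + 1) I false 0 none
  /-- the basic solution satisfies the inequalities `x i ≥ 0`, `i ≥ j` -/
  | back (j : ℕ) (hj : j < n) (I : Finset (Fin n)) (u : Fin n → ℝ) (N : ℕ)
      (o : Option (Finset (Fin n))) (hu : Basic A b I u)
      (h0 : ∀ i ∈ I, (⟨j, hj⟩ : Fin n) < i → 0 ≤ u i)
      (hr : Run A b j I false N o) : Run A b j I true N o
  /-- a pivot: `i` leaves by the ratio test, the next free column enters -/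
  | pivot (j : ℕ) (hj : j < n) (I : Finset (Fin n)) (u w : Fin n → ℝ) (i q : Fin n) (N : ℕ)
      (o : Option (Finset (Fin n))) (hu : Basic A b I u) (hw : Direction A I ⟨j, hj⟩ w)
      (hi : Ratio I ⟨j, hj⟩ u w i) (hq : NextFree I i q)
      (hr : Run A b j (insert q (I.erase i)) true N o) : Run A b j I true (N + 1) o
  /-- the same, without a free column -/
  | stopPivot (j : ℕ) (hj : j < n) (I : Finset (Fin n)) (u w : Fin n → ℝ) (i : Fin n)
      (hu : Basic A b I u) (hw : Direction A I ⟨j, hj⟩ w) (hi : Ratio I ⟨j, hj⟩ u w i)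
      (hfull : ∀ l, i < l → l ∈ I) : Run A b j I true 0 none

/-- The invariant. -/
def Inv (A : Matrix (Fin k) (Fin n) ℝ) (b : Fin k → ℝ) (j : ℕ) (I : Finset (Fin n)) :
    Bool → Prop
  | false => I.card = k ∧ Gale I ∧ (∀ e : Fin n, e.val < j → e ∈ I) ∧ j ≤ k ∧
      ∃ u, Basic A b I u ∧ ∀ i ∈ I, j ≤ i.val → 0 ≤ u i
  | true => I.card = k ∧ Gale I ∧ (∀ e : Fin n, e.val < j → e ∈ I) ∧ j ≤ k ∧ Even (k - j) ∧
      ∃ hj : j < n, (⟨j, hj⟩ : Fin n) ∉ I ∧ ∃ v : Fin n → ℝ, A.mulVec v = b ∧
        (∀ i ∉ I, i ≠ ⟨j, hj⟩ → v i = 0) ∧ v ⟨j, hj⟩ ≤ 0 ∧ ∀ i, (⟨j, hj⟩ : Fin n) < i → 0 ≤ v i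

/-- The sum of the elements of `I`. -/
def pot (I : Finset (Fin n)) : ℕ := ∑ e ∈ I, e.val

theorem above_le (I : Finset (Fin n)) (e : Fin n) : e.val + above I e + 1 ≤ n := by
  have h1 : above I e ≤ (Finset.Ioi e).card := by
    apply card_le_card
    intro x hx
    exact mem_Ioi.2 (mem_filter.1 hx).2
  rw [Fin.card_Ioi] at h1
  have := e.isLt
  omega

theorem pot_le {I : Finset (Fin n)} (hI : I.card = k) (hk : k ≤ n) :
    pot I ≤ ∑ r ∈ range k, r + k * (n - k) := by
  rcases Nat.eq_zero_or_pos k with rfl | hk0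
  · have : I = ∅ := card_eq_zero.1 hI
    subst this
    simp [pot]
  · obtain ⟨r, rfl⟩ : ∃ r, k = r + 1 := ⟨k - 1, by omega⟩
    have h3 : I = univ.map (I.orderEmbOfFin hI).toEmbedding := by
      ext e
      simp only [mem_map, mem_univ, true_and, RelEmbedding.coe_toEmbedding]
      have h := Finset.range_orderEmbOfFin I hI
      constructor
      · intro he
        have : e ∈ Set.range (I.orderEmbOfFin hI) := by
          rw [h]
          exact he
        exact this
      · intro he
        have h4 : e ∈ Set.range (I.orderEmbOfFin hI) := he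
        rw [h] at h4
        exact h4
    have h4 : pot I = ∑ i : Fin (r + 1), (I.orderEmbOfFin hI i).val := by
      unfold pot
      conv_lhs => rw [h3]
      rw [sum_map]
      rfl
    rw [h4]
    have h5 : ∀ i : Fin (r + 1), (I.orderEmbOfFin hI i).val ≤ i.val + (n - (r + 1)) := by
      intro i
      have h6 := above_le I (I.orderEmbOfFin hI i)
      rw [above_emb hI i] at h6
      have := i.isLt
      omega
    calc ∑ i : Fin (r + 1), (I.orderEmbOfFin hI i).val
        ≤ ∑ i : Fin (r + 1), (i.val + (n - (r + 1))) := sum_le_sum fun i _ => h5 i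
      _ = ∑ i ∈ range (r + 1), (i + (n - (r + 1))) := by
          rw [Fin.sum_univ_eq_sum_range (fun i => i + (n - (r + 1))) (r + 1)]
      _ = _ := by
          rw [sum_add_distrib, sum_const, card_range, smul_eq_mul]

/-- exchanging `i` for the next free column, if the number of columns after `i` is odd -/
theorem swap {I : Finset (Fin n)} (hI : I.card = k) (hG : Gale I) {i q : Fin n} (hi : i ∈ I)
    (hodd : Odd (above I i)) (hq : NextFree I i q) :
    (insert q (I.erase i)).card = k ∧ Gale (insert q (I.erase i)) ∧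
      pot I + 2 ≤ pot (insert q (I.erase i)) := by
  obtain ⟨h1, h2, h3⟩ := hq
  have hqe : q ∉ I.erase i := fun h => h2 (mem_of_mem_erase h)
  refine ⟨?_, ?_, ?_⟩
  · rw [card_insert_of_notMem hqe, card_erase_of_mem hi, hI]
    have : 0 < I.card := card_pos.2 ⟨i, hi⟩
    omega
  · intro l hl
    have hlq : l ≠ q := fun h => hl (h ▸ mem_insert_self _ _)
    have hle : l ∉ I.erase i := fun h => hl (mem_insert_of_mem h)
    by_cases hli : l = i
    · subst hli
      rw [above_insert_of_lt hqe h1, above_erase_of_le le_rfl]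
      exact hodd.add_one
    · have hlI : l ∉ I := fun h => hle (mem_erase.2 ⟨hli, h⟩)
      rcases lt_trichotomy l i with h | h | h
      · rw [above_insert_of_lt hqe (h.trans h1), above_erase_of_gt hi h]
        exact hG l hlI
      · exact absurd h hli
      · have hql : q < l := by
          rcases lt_trichotomy l q with h4 | h4 | h4
          · exact absurd (h3 l h h4) hlI
          · exact absurd h4 hlq
          · exact h4
        rw [above_insert_of_gt hql, above_erase_of_le h.le]
        exact hG l hlI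
  · have hq2 : i.val + 2 ≤ q.val := by
      by_contra hcon
      have hv : i.val < q.val := h1
      have h4 : q.val = i.val + 1 := by omega
      have h5 : above I q = above I i := by
        unfold above
        congr 1
        ext e
        simp only [mem_filter]
        constructor
        · rintro ⟨a, c⟩
          exact ⟨a, h1.trans c⟩
        · rintro ⟨a, c⟩
          refine ⟨a, ?_⟩
          have c' : i.val < e.val := c
          have : e ≠ q := fun h => h2 (h ▸ a)
          have : e.val ≠ q.val := fun h => this (Fin.ext h)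
          exact Fin.lt_def.2 (by omega)
      have h6 := hG q h2
      rw [h5] at h6
      exact (Nat.not_even_iff_odd.2 hodd) h6
    unfold pot
    rw [sum_insert hqe]
    have h7 : ∑ e ∈ I, e.val = i.val + ∑ e ∈ I.erase i, e.val := (add_sum_erase I _ hi).symm
    rw [h7]
    omega

/-- the number of columns of `I` after the first `j` -/
theorem above_prefix {I : Finset (Fin n)} (hI : I.card = k) {j : ℕ} (hj : j < n)
    (hpre : ∀ e : Fin n, e.val < j + 1 → e ∈ I) : above I ⟨j, hj⟩ + (j + 1) = k := by
  have h1 : I = (I.filter fun e => (⟨j, hj⟩ : Fin n) < e) ∪ (Finset.Iic (⟨j, hj⟩ : Fin n)) := by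
    ext e
    simp only [mem_union, mem_filter, mem_Iic]
    constructor
    · intro he
      rcases lt_or_ge (⟨j, hj⟩ : Fin n) e with h | h
      · exact Or.inl ⟨he, h⟩
      · exact Or.inr h
    · rintro (h | h)
      · exact h.1
      · apply hpre
        have : e.val ≤ j := h
        omega
  have h2 : Disjoint (I.filter fun e => (⟨j, hj⟩ : Fin n) < e) (Finset.Iic (⟨j, hj⟩ : Fin n)) := by
    rw [disjoint_left]
    intro e he he'
    exact absurd (mem_filter.1 he).2 (not_lt.2 (mem_Iic.1 he'))
  have h3 := congrArg Finset.card h1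
  rw [card_union_of_disjoint h2, Fin.card_Iic, hI] at h3
  unfold above
  simp only at h3
  omega

/-- the invariant after the first pivot of a phase -/
theorem inv_enter {A : Matrix (Fin k) (Fin n) ℝ} {b : Fin k → ℝ} {j : ℕ}
    {I : Finset (Fin n)} (hinv : Inv A b (j + 1) I false) (hj : j < n)
    {u : Fin n → ℝ} (hA : PosMinors A) (hu : Basic A b I u) (h0 : u ⟨j, hj⟩ < 0)
    (heven : Even (k - j)) {q : Fin n} (hq : NextFree I ⟨j, hj⟩ q) :
    Inv A b j (insert q (I.erase ⟨j, hj⟩)) true ∧
      pot I + 2 ≤ pot (insert q (I.erase ⟨j, hj⟩)) := by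
  obtain ⟨hI, hG, hpre, hjk, u', hu', hpos⟩ := hinv
  have hab := above_prefix hI hj hpre
  have hodd : Odd (above I ⟨j, hj⟩) := by
    rw [Nat.odd_iff]
    rw [Nat.even_iff] at heven
    omega
  have hmem : (⟨j, hj⟩ : Fin n) ∈ I := hpre _ (by simp)
  have hs := swap hI hG hmem hodd hq
  have huu : u = u' := basic_unique hA hI hu hu'
  subst huu
  refine ⟨⟨hs.1, hs.2.1, ?_, by omega, heven, hj, ?_, u, hu.1, ?_, h0.le, ?_⟩, hs.2.2⟩
  · intro e he
    refine mem_insert_of_mem (mem_erase.2 ⟨?_, hpre e (by omega)⟩)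
    intro h
    rw [h] at he
    simp at he
  · intro h
    rcases mem_insert.1 h with h | h
    · exact absurd hq.1 (h ▸ lt_irrefl _)
    · exact absurd h (notMem_erase _ _)
  · intro i hi hij
    apply hu.2 i
    intro h
    exact hi (mem_insert_of_mem (mem_erase.2 ⟨hij, h⟩))
  · intro i hi
    have hi' : j < i.val := hi
    by_cases h : i ∈ I
    · exact hpos i h (by omega)
    · rw [hu.2 i h]

/-- the sign of the direction in the active phase -/
theorem active_sign {A : Matrix (Fin k) (Fin n) ℝ} (hA : PosMinors A) {I : Finset (Fin n)}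
    (hI : I.card = k) (hG : Gale I) {l : Fin n} (hl : l ∉ I) {w : Fin n → ℝ}
    (hw : Direction A I l w) {i : Fin n} (hi : i ∈ I) (hli : l < i) :
    (w i < 0 ↔ Odd (above I i)) ∧ (¬ w i < 0 → 0 < w i) := by
  obtain ⟨w', h1, h2, -, -⟩ := direction_exists hA hI hG hl
  have : w = w' := direction_unique hA hI hw h1
  subst this
  have h3 := h2 i hi hli
  rcases Nat.even_or_odd (above I i) with h | h
  · rw [h.neg_one_pow, one_mul] at h3
    refine ⟨⟨fun h4 => absurd h3 (not_lt.2 h4.le), fun h4 => ?_⟩, fun _ => h3⟩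
    exact absurd h4 (Nat.not_odd_iff_even.2 h)
  · rw [h.neg_one_pow] at h3
    exact ⟨⟨fun _ => h, fun _ => by linarith⟩, fun h4 => absurd (by linarith) h4⟩

/-- the invariant after a pivot -/
theorem inv_pivot {A : Matrix (Fin k) (Fin n) ℝ} (hA : PosMinors A) {b : Fin k → ℝ} {j : ℕ}
    {I : Finset (Fin n)} (hinv : Inv A b j I true) (hj : j < n) {u w : Fin n → ℝ}
    (hu : Basic A b I u) (hw : Direction A I ⟨j, hj⟩ w) {i : Fin n}
    (hi : Ratio I ⟨j, hj⟩ u w i) {q : Fin n} (hq : NextFree I i q) :
    Inv A b j (insert q (I.erase i)) true ∧ pot I + 2 ≤ pot (insert q (I.erase i)) := by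
  obtain ⟨hI, hG, hpre, hjk, heven, hj', hjI, v, hv, hv0, hvj, hvpos⟩ := hinv
  obtain ⟨hiI, hji, hui, hwi, hmax⟩ := hi
  have hodd : Odd (above I i) := (active_sign hA hI hG hjI hw hiI hji).1.1 hwi
  have hs := swap hI hG hiI hodd hq
  obtain ⟨J, hJ⟩ : ∃ J : Fin n, J = ⟨j, hj⟩ := ⟨_, rfl⟩
  rw [← hJ] at hw hji hmax hjI hv0 hvj hvpos
  -- the basic solution from `v`
  have huv : u = v + (- v J) • w := by
    have hb : Basic A b I (v + (- v J) • w) := by
      refine ⟨?_, ?_⟩
      · rw [Matrix.mulVec_add, Matrix.mulVec_smul, hw.1, smul_zero, add_zero, hv]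
      · intro e he
        simp only [Pi.add_apply, Pi.smul_apply, smul_eq_mul]
        by_cases heJ : e = J
        · rw [heJ, hw.2.1]
          ring
        · rw [hv0 e he heJ, hw.2.2 e he heJ]
          ring
    exact basic_unique hA hI hu hb
  obtain ⟨s, hs'⟩ : ∃ s : ℝ, s = - v J := ⟨_, rfl⟩
  have hs0 : 0 ≤ s := by rw [hs']; linarith
  rw [← hs'] at huv
  have hue : ∀ e, u e = v e + s * w e := by
    intro e
    conv_lhs => rw [huv]
    simp
  obtain ⟨θ, hθ⟩ : ∃ θ : ℝ, θ = u i / w i := ⟨_, rfl⟩
  have hθ0 : 0 < θ := by rw [hθ]; exact div_pos_of_neg_of_neg hui hwi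
  have hθs : θ ≤ s := by
    rw [hθ, div_le_iff_of_neg hwi]
    have := hvpos i hji
    rw [hue i]
    linarith
  rw [← hθ] at hmax
  refine ⟨⟨hs.1, hs.2.1, ?_, hjk, heven, hj, ?_, u + (-θ) • w, ?_, ?_, ?_, ?_⟩, hs.2.2⟩
  · intro e he
    refine mem_insert_of_mem (mem_erase.2 ⟨?_, hpre e he⟩)
    intro h
    rw [h] at he
    have : j < i.val := by
      rw [hJ] at hji
      exact hji
    omega
  · rw [← hJ]
    intro h
    rcases mem_insert.1 h with h | h
    · rw [h] at hji
      exact absurd (hji.trans hq.1) (lt_irrefl _)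
    · exact hjI (mem_of_mem_erase h)
  · rw [Matrix.mulVec_add, Matrix.mulVec_smul, hw.1, smul_zero, add_zero, hu.1]
  · intro e he hej
    rw [← hJ] at hej
    simp only [Pi.add_apply, Pi.smul_apply, smul_eq_mul]
    by_cases hei : e = i
    · rw [hei, hθ]
      have h9 := div_mul_cancel₀ (u i) hwi.ne
      linarith
    · have heI : e ∉ I := fun h => he (mem_insert_of_mem (mem_erase.2 ⟨hei, h⟩))
      rw [hu.2 e heI, hw.2.2 e heI hej]
      ring
  · rw [← hJ]
    simp only [Pi.add_apply, Pi.smul_apply, smul_eq_mul]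
    rw [hu.2 J hjI, hw.2.1]
    linarith
  · rw [← hJ]
    intro e he
    simp only [Pi.add_apply, Pi.smul_apply, smul_eq_mul]
    by_cases heI : e ∈ I
    · by_cases hwe : w e < 0
      · by_cases hue0 : u e < 0
        · have h1 := hmax e heI he hue0 hwe
          rw [div_le_iff_of_neg hwe] at h1
          linarith
        · have : 0 ≤ θ * (- w e) := mul_nonneg hθ0.le (by linarith)
          linarith
      · have h1 : 0 < w e := (active_sign hA hI hG hjI hw heI he).2 hwe
        have h2 := hvpos e he
        rw [hue e]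
        have : 0 ≤ (s - θ) * w e := mul_nonneg (by linarith) h1.le
        linarith
    · have hej : e ≠ J := he.ne'
      rw [hu.2 e heI, hw.2.2 e heI hej]
      simp

/-- the invariant at the end of a phase -/
theorem inv_back {A : Matrix (Fin k) (Fin n) ℝ} {b : Fin k → ℝ} {j : ℕ}
    {I : Finset (Fin n)} (hinv : Inv A b j I true) (hj : j < n) {u : Fin n → ℝ}
    (hu : Basic A b I u) (h0 : ∀ i ∈ I, (⟨j, hj⟩ : Fin n) < i → 0 ≤ u i) :
    Inv A b j I false := by
  obtain ⟨hI, hG, hpre, hjk, heven, hj', hjI, -⟩ := hinv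
  refine ⟨hI, hG, hpre, hjk, u, hu, ?_⟩
  intro i hi hji
  apply h0 i hi
  rcases Nat.lt_or_ge j i.val with h | h
  · exact h
  · have : i = ⟨j, hj'⟩ := Fin.ext (by simp; omega)
    rw [this] at hi
    exact absurd hi hjI

/-- the invariant if the inequality is satisfied -/
theorem inv_keep {A : Matrix (Fin k) (Fin n) ℝ} (hA : PosMinors A) {b : Fin k → ℝ} {j : ℕ}
    {I : Finset (Fin n)} (hinv : Inv A b (j + 1) I false) (hj : j < n) {u : Fin n → ℝ}
    (hu : Basic A b I u) (h0 : 0 ≤ u ⟨j, hj⟩) : Inv A b j I false := by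
  obtain ⟨hI, hG, hpre, hjk, u', hu', hpos⟩ := hinv
  have huu : u = u' := basic_unique hA hI hu hu'
  subst huu
  refine ⟨hI, hG, fun e he => hpre e (by omega), by omega, u, hu, ?_⟩
  intro i hi hji
  rcases Nat.lt_or_ge j i.val with h | h
  · exact hpos i hi (by omega)
  · have : i = ⟨j, hj⟩ := Fin.ext (by simp; omega)
    rw [this]
    exact h0

/-- What the outcome means. -/
def Correct (A : Matrix (Fin k) (Fin n) ℝ) (b : Fin k → ℝ) : Option (Finset (Fin n)) → Prop
  | none => ¬ ∃ z : Fin n → ℝ, (∀ t, 0 ≤ z t) ∧ A.mulVec z = b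
  | some I => ∃ u : Fin n → ℝ, Basic A b I u ∧ (∀ t, 0 ≤ u t) ∧
      ∀ c : Fin n → ℝ, PosMinors (addRow A c) → ∀ z : Fin n → ℝ, (∀ t, 0 ≤ z t) →
        A.mulVec z = b → ∑ t, c t * u t ≤ ∑ t, c t * z t

theorem sound {A : Matrix (Fin k) (Fin n) ℝ} (hA : PosMinors A) (hk : k ≤ n) {b : Fin k → ℝ}
    {j : ℕ} {I : Finset (Fin n)} {act : Bool} {N : ℕ} {o : Option (Finset (Fin n))}
    (hr : Run A b j I act N o) : Inv A b j I act →
    Correct A b o ∧ pot I + 2 * N ≤ ∑ r ∈ range k, r + k * (n - k) := by
  induction hr with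
  | done I =>
    rintro ⟨hI, hG, -, -, u, hu, hpos⟩
    refine ⟨⟨u, hu, fun t => ?_, fun c hc z hz0 hz => optimal hA hI hG hu hc hz0 hz⟩, ?_⟩
    · by_cases ht : t ∈ I
      · exact hpos t ht (Nat.zero_le _)
      · rw [hu.2 t ht]
    · exact pot_le hI hk
  | keep j hj I u N o hu h0 _ ih => exact fun hinv => ih (inv_keep hA hinv hj hu h0)
  | stopOdd j hj I u hu h0 hodd =>
    rintro ⟨hI, hG, hpre, hjk, -⟩
    refine ⟨?_, ?_⟩
    · have hab := above_prefix hI hj hpre
      refine infeasible hA hI hG hu (hpre _ (by simp)) h0 ?_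
      intro l hl
      constructor
      · intro h
        have : l.val < j := h
        exact absurd (hpre l (by omega)) hl
      · intro _
        rw [Nat.even_iff]
        rw [Nat.odd_iff] at hodd
        omega
    · exact pot_le hI hk
  | enter j hj I u q N o hu h0 heven hq _ ih =>
    intro hinv
    have h1 := inv_enter hinv hj hA hu h0 heven hq
    have h2 := ih h1.1
    refine ⟨h2.1, ?_⟩
    have := h1.2
    have := h2.2
    omega
  | stopEnter j hj I u hu h0 heven hfull =>
    rintro ⟨hI, hG, hpre, hjk, -⟩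
    refine ⟨?_, ?_⟩
    · refine infeasible hA hI hG hu (hpre _ (by simp)) h0 ?_
      intro l hl
      constructor
      · intro h
        have : l.val < j := h
        exact absurd (hpre l (by omega)) hl
      · intro h
        exact absurd (hfull l h) hl
    · exact pot_le hI hk
  | back j hj I u N o hu h0 _ ih => exact fun hinv => ih (inv_back hinv hj hu h0)
  | pivot j hj I u w i q N o hu hw hi hq _ ih =>
    intro hinv
    have h1 := inv_pivot hA hinv hj hu hw hi hq
    have h2 := ih h1.1
    refine ⟨h2.1, ?_⟩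
    have := h1.2
    have := h2.2
    omega
  | stopPivot j hj I u w i hu hw hi hfull =>
    rintro ⟨hI, hG, hpre, hjk, heven, hj', hjI, -⟩
    refine ⟨?_, ?_⟩
    · have hodd : Odd (above I i) := (active_sign hA hI hG hjI hw hi.1 hi.2.1).1.1 hi.2.2.2.1
      refine infeasible hA hI hG hu hi.1 hi.2.2.1 ?_
      intro l hl
      constructor
      · intro _
        exact hodd
      · intro h
        exact absurd (hfull l h) hl
    · exact pot_le hI hk

/-- either there is a next free column, or all later columns are in `I` -/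
theorem free_or (I : Finset (Fin n)) (i : Fin n) :
    (∃ q, NextFree I i q) ∨ ∀ l, i < l → l ∈ I := by
  by_cases h : ∀ l, i < l → l ∈ I
  · exact Or.inr h
  · left
    push Not at h
    have hne : (univ.filter fun l : Fin n => i < l ∧ l ∉ I).Nonempty := by
      obtain ⟨l, h1, h2⟩ := h
      exact ⟨l, mem_filter.2 ⟨mem_univ _, h1, h2⟩⟩
    refine ⟨(univ.filter fun l : Fin n => i < l ∧ l ∉ I).min' hne, ?_⟩
    have h1 := min'_mem _ hne
    rw [mem_filter] at h1
    refine ⟨h1.2.1, h1.2.2, ?_⟩
    intro l hl hlt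
    by_contra hcon
    have h5 : l ∈ univ.filter fun l : Fin n => i < l ∧ l ∉ I :=
      mem_filter.2 ⟨mem_univ _, hl, hcon⟩
    exact absurd hlt (not_lt.2 (min'_le _ l h5))

theorem exists_run {A : Matrix (Fin k) (Fin n) ℝ} (hA : PosMinors A) (hk : k ≤ n)
    {b : Fin k → ℝ} (M : ℕ) : ∀ (j : ℕ) (I : Finset (Fin n)) (act : Bool), Inv A b j I act →
    2 * j + (if act then 1 else 0) + 2 * (k + 1) * (∑ r ∈ range k, r + k * (n - k) - pot I) ≤ M →
    ∃ N o, Run A b j I act N o := by
  induction M using Nat.strong_induction_on with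
  | _ M ih =>
  intro j I act hinv hM
  cases act with
  | false =>
    rcases Nat.eq_zero_or_pos j with rfl | hj0
    · exact ⟨0, _, Run.done I⟩
    · obtain ⟨j, rfl⟩ : ∃ i, j = i + 1 := ⟨j - 1, by omega⟩
      have hinv' := hinv
      obtain ⟨hI, hG, hpre, hjk, u, hu, hpos⟩ := hinv'
      have hj : j < n := by omega
      rcases le_or_gt 0 (u ⟨j, hj⟩) with h0 | h0
      · obtain ⟨N, o, hr⟩ := ih (2 * j + (if false then 1 else 0) +
          2 * (k + 1) * (∑ r ∈ range k, r + k * (n - k) - pot I))
          (by simp only [Bool.false_eq_true, if_false] at hM ⊢; omega) j I false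
          (inv_keep hA hinv hj hu h0) le_rfl
        exact ⟨N, o, Run.keep j hj I u N o hu h0 hr⟩
      · rcases Nat.even_or_odd (k - j) with he | ho
        · rcases free_or I ⟨j, hj⟩ with ⟨q, hq⟩ | hfull
          · have h1 := inv_enter hinv hj hA hu h0 he hq
            have h2 := pot_le h1.1.1 hk
            obtain ⟨N, o, hr⟩ := ih (2 * j + (if true then 1 else 0) + 2 * (k + 1) *
              (∑ r ∈ range k, r + k * (n - k) - pot (insert q (I.erase ⟨j, hj⟩)))) (by
                have h3 : ∑ r ∈ range k, r + k * (n - k) - pot (insert q (I.erase ⟨j, hj⟩)) + 1 ≤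
                    ∑ r ∈ range k, r + k * (n - k) - pot I := by
                  have := h1.2
                  omega
                have h4 := Nat.mul_le_mul_left (2 * (k + 1)) h3
                rw [mul_add, mul_one] at h4
                simp only [Bool.false_eq_true, if_false, if_true] at hM ⊢
                omega) j _ true h1.1 le_rfl
            exact ⟨N + 1, o, Run.enter j hj I u q N o hu h0 he hq hr⟩
          · exact ⟨0, none, Run.stopEnter j hj I u hu h0 he hfull⟩
        · exact ⟨0, none, Run.stopOdd j hj I u hu h0 ho⟩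
  | true =>
    have hinv' := hinv
    obtain ⟨hI, hG, hpre, hjk, heven, hj, hjI, -⟩ := hinv'
    obtain ⟨u, hu⟩ : ∃ u, Basic A b I u := basic_exists hA hI b
    obtain ⟨w, hw, -⟩ := direction_exists hA hI hG hjI
    by_cases hall : ∀ i ∈ I, (⟨j, hj⟩ : Fin n) < i → 0 ≤ u i
    · obtain ⟨N, o, hr⟩ := ih (2 * j + (if false then 1 else 0) +
          2 * (k + 1) * (∑ r ∈ range k, r + k * (n - k) - pot I))
          (by simp only [Bool.false_eq_true, if_false, if_true] at hM ⊢; omega) j I false
          (inv_back hinv hj hu hall) le_rfl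
      exact ⟨N, o, Run.back j hj I u N o hu hall hr⟩
    · -- the ratio test
      obtain ⟨L, hL⟩ : ∃ L, L = I.filter (fun e => (⟨j, hj⟩ : Fin n) < e ∧ u e < 0 ∧ w e < 0) :=
        ⟨_, rfl⟩
      have hne : L.Nonempty := by
        push Not at hall
        obtain ⟨e, he, hje, hue⟩ := hall
        refine ⟨e, ?_⟩
        rw [hL, mem_filter]
        refine ⟨he, hje, hue, ?_⟩
        by_contra hwe
        have h1 : 0 < w e := (active_sign hA hI hG hjI hw he hje).2 hwe
        obtain ⟨_, _, _, _, _, _, _, v, hv, hv0, hvj, hvpos⟩ := hinv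
        have hb : Basic A b I (v + (- v ⟨j, hj⟩) • w) := by
          refine ⟨?_, ?_⟩
          · rw [Matrix.mulVec_add, Matrix.mulVec_smul, hw.1, smul_zero, add_zero, hv]
          · intro e he
            simp only [Pi.add_apply, Pi.smul_apply, smul_eq_mul]
            by_cases heJ : e = ⟨j, hj⟩
            · rw [heJ, hw.2.1]
              ring
            · rw [hv0 e he heJ, hw.2.2 e he heJ]
              ring
        have h2 := basic_unique hA hI hu hb
        have h3 : u e = v e + (- v ⟨j, hj⟩) * w e := by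
          conv_lhs => rw [h2]
          simp
        have h4 := hvpos e hje
        have h5 : 0 ≤ (- v ⟨j, hj⟩) * w e := mul_nonneg (by linarith) h1.le
        linarith
      obtain ⟨i, hiL, himax⟩ := exists_max_image L (fun e => u e / w e) hne
      have hi : Ratio I ⟨j, hj⟩ u w i := by
        rw [hL, mem_filter] at hiL
        refine ⟨hiL.1, hiL.2.1, hiL.2.2.1, hiL.2.2.2, ?_⟩
        intro e he hje hue hwe
        exact himax e (by rw [hL, mem_filter]; exact ⟨he, hje, hue, hwe⟩)
      rcases free_or I i with ⟨q, hq⟩ | hfull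
      · have h1 := inv_pivot hA hinv hj hu hw hi hq
        have h2 := pot_le h1.1.1 hk
        obtain ⟨N, o, hr⟩ := ih (2 * j + (if true then 1 else 0) + 2 * (k + 1) *
              (∑ r ∈ range k, r + k * (n - k) - pot (insert q (I.erase i)))) (by
                have h3 : ∑ r ∈ range k, r + k * (n - k) - pot (insert q (I.erase i)) + 1 ≤
                    ∑ r ∈ range k, r + k * (n - k) - pot I := by
                  have := h1.2
                  omega
                have h4 := Nat.mul_le_mul_left (2 * (k + 1)) h3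
                rw [mul_add, mul_one] at h4
                simp only [if_true] at hM ⊢
                omega) j _ true h1.1 le_rfl
        exact ⟨N + 1, o, Run.pivot j hj I u w i q N o hu hw hi hq hr⟩
      · exact ⟨0, none, Run.stopPivot j hj I u w i hu hw hi hfull⟩

/-- The first basis: the first `k` columns. -/
def first (k n : ℕ) : Finset (Fin n) := univ.filter fun e => e.val < k

theorem first_card (hk : k ≤ n) : (first k n).card = k := by
  unfold first
  rw [Fin.card_filter_val_lt]
  exact min_eq_right hk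

theorem pot_first (hk : k ≤ n) : pot (first k n) = ∑ r ∈ range k, r := by
  unfold pot first
  rw [sum_filter]
  rw [Fin.sum_univ_eq_sum_range (fun i => if i < k then i else 0) n]
  rw [← sum_filter]
  congr 1
  ext i
  simp only [mem_filter, mem_range]
  omega

theorem inv_first {A : Matrix (Fin k) (Fin n) ℝ} (hA : PosMinors A) (hk : k ≤ n)
    (b : Fin k → ℝ) : Inv A b k (first k n) false := by
  refine ⟨first_card hk, ?_, ?_, le_rfl, ?_⟩
  · intro l hl
    have : above (first k n) l = 0 := by
      unfold above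
      rw [card_eq_zero, filter_eq_empty_iff]
      intro e he
      unfold first at he hl
      rw [mem_filter] at he hl
      have h1 : ¬ l.val < k := fun h => hl ⟨mem_univ _, h⟩
      intro h2
      have h3 : l.val < e.val := h2
      have := he.2
      omega
    rw [this]
    exact Even.zero
  · intro e he
    unfold first
    exact mem_filter.2 ⟨mem_univ _, he⟩
  · obtain ⟨u, hu⟩ := basic_exists hA (first_card hk) b
    refine ⟨u, hu, ?_⟩
    intro i hi hki
    unfold first at hi
    rw [mem_filter] at hi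
    have := hi.2
    omega

/-- the theorem -/
theorem main {A : Matrix (Fin k) (Fin n) ℝ} (hA : PosMinors A) (hk : k ≤ n) (b : Fin k → ℝ) :
    (∃ N o, Run A b k (first k n) false N o) ∧
    ∀ N o, Run A b k (first k n) false N o → 2 * N ≤ k * (n - k) ∧ Correct A b o := by
  refine ⟨exists_run hA hk _ k (first k n) false (inv_first hA hk b) le_rfl, ?_⟩
  intro N o hr
  have h := sound hA hk hr (inv_first hA hk b)
  refine ⟨?_, h.1⟩
  have h2 := h.2
  rw [pot_first hk] at h2
  omega

end Run7.h380.TP
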