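import Pool.Agent.Run7.h380.TP.Run

set_option autoImplicit false

/-!
# Alternating systems (subspace form)
-/

namespace Run7.h380.TP

open Finset

variable {k r : ℕ}

/-- An alternating system: the affine space `S` of the slack vectors, its direction `V`. -/
structure AltSys (k r : ℕ) where
  /-- the direction -/
  V : Submodule ℝ (Fin r → ℝ)
  /-- the affine space -/
  S : Set (Fin r → ℝ)
  add_mem : ∀ u ∈ S, ∀ w ∈ V, u + w ∈ S
  sub_mem : ∀ u ∈ S, ∀ u' ∈ S, u - u' ∈ V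
  indep : ∀ I : Finset (Fin r), I.card = k → ∀ w ∈ V, (∀ i ∉ I, w i = 0) → w = 0
  basic : ∀ I : Finset (Fin r), I.card = k → ∃ u ∈ S, ∀ i ∉ I, u i = 0
  circ : ∀ T : Finset (Fin r), T.card = k + 1 → ∃ w ∈ V, (∀ t ∉ T, w t = 0) ∧
    ∀ t ∈ T, 0 < (-1) ^ above T t * w t

namespace AltSys

variable (s : AltSys k r)

/-- basic solutions -/
def Bas (I : Finset (Fin r)) (u : Fin r → ℝ) : Prop := u ∈ s.S ∧ ∀ i ∉ I, u i = 0

/-- directions -/
def Dir (I : Finset (Fin r)) (l : Fin r) (w : Fin r → ℝ) : Prop :=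
  w ∈ s.V ∧ w l = 1 ∧ ∀ i, i ∉ I → i ≠ l → w i = 0

/-- the system has a nonnegative solution -/
def Feasible : Prop := ∃ z ∈ s.S, ∀ t, 0 ≤ z t

variable {s}

theorem bas_unique {I : Finset (Fin r)} (hI : I.card = k) {u u' : Fin r → ℝ} (h : s.Bas I u)
    (h' : s.Bas I u') : u = u' := by
  have h1 : u - u' = 0 := s.indep I hI _ (s.sub_mem u h.1 u' h'.1) fun i hi => by
    simp [h.2 i hi, h'.2 i hi]
  exact sub_eq_zero.1 h1

theorem dir_unique {I : Finset (Fin r)} (hI : I.card = k) {l : Fin r} {w w' : Fin r → ℝ}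
    (h : s.Dir I l w) (h' : s.Dir I l w') : w = w' := by
  have h1 : w - w' = 0 := by
    refine s.indep I hI _ (s.V.sub_mem h.1 h'.1) fun i hi => ?_
    by_cases hil : i = l
    · subst hil
      simp [h.2.1, h'.2.1]
    · simp [h.2.2 i hi hil, h'.2.2 i hi hil]
  exact sub_eq_zero.1 h1

theorem dir_exists {I : Finset (Fin r)} (hI : I.card = k) (hG : Gale I) {l : Fin r}
    (hl : l ∉ I) : ∃ w, s.Dir I l w ∧ (∀ i ∈ I, l < i → 0 < (-1) ^ above I i * w i) ∧
      (∀ i ∈ I, i < l → 0 < (-1) ^ (above I i + 1) * w i) := by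
  have hT : (insert l I).card = k + 1 := by rw [card_insert_of_notMem hl, hI]
  obtain ⟨w, hwV, h1, h2⟩ := s.circ (insert l I) hT
  have hwl : 0 < w l := by
    have := h2 l (mem_insert_self _ _)
    rw [above_insert_self, (hG l hl).neg_one_pow, one_mul] at this
    exact this
  refine ⟨fun t => w t / w l, ⟨?_, div_self hwl.ne', ?_⟩, ?_, ?_⟩
  · have : (fun t => w t / w l) = (w l)⁻¹ • w := by
      ext t
      simp only [Pi.smul_apply, smul_eq_mul]
      field_simp
    rw [this]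
    exact s.V.smul_mem _ hwV
  · intro i hi hil
    have : w i = 0 := h1 i (by simp [hi, hil])
    simp [this]
  · intro i hi hli
    have := h2 i (mem_insert_of_mem hi)
    rw [above_insert_of_gt hli] at this
    have h5 : (-1 : ℝ) ^ above I i * (w i / w l) = ((-1) ^ above I i * w i) / w l := by ring
    rw [h5]
    exact div_pos this hwl
  · intro i hi hli
    have := h2 i (mem_insert_of_mem hi)
    rw [above_insert_of_lt hl hli] at this
    have h5 : (-1 : ℝ) ^ (above I i + 1) * (w i / w l) = ((-1) ^ (above I i + 1) * w i) / w l := by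
      ring
    rw [h5]
    exact div_pos this hwl

theorem infeas {I : Finset (Fin r)} (hI : I.card = k) (hG : Gale I) {u : Fin r → ℝ}
    (hu : s.Bas I u) {i : Fin r} (hi : i ∈ I) (hneg : u i < 0)
    (hs : ∀ l ∉ I, (l < i → Odd (above I i)) ∧ (i < l → Even (above I i))) :
    ¬ s.Feasible := by
  rintro ⟨z, hz, hz0⟩
  choose! W hW using fun l (hl : l ∉ I) => dir_exists (s := s) hI hG hl
  have h1 : z - u - ∑ l ∈ Iᶜ, z l • W l = 0 := by
    apply s.indep I hI
    · refine s.V.sub_mem (s.sub_mem z hz u hu.1) (s.V.sum_mem fun l hl => ?_)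
      exact s.V.smul_mem _ (hW l (mem_compl.1 hl)).1.1
    · intro i hi
      simp only [Pi.sub_apply, hu.2 i hi, sub_zero, Finset.sum_apply, Pi.smul_apply, smul_eq_mul]
      rw [sum_eq_single i]
      · rw [(hW i hi).1.2.1, mul_one, sub_self]
      · intro l hl hli
        rw [(hW l (mem_compl.1 hl)).1.2.2 i hi (Ne.symm hli), mul_zero]
      · intro h
        exact absurd (mem_compl.2 hi) h
  have h2 : z i = u i + ∑ l ∈ Iᶜ, z l * W l i := by
    have := congrFun h1 i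
    simp only [Pi.sub_apply, Finset.sum_apply, Pi.smul_apply, smul_eq_mul, Pi.zero_apply] at this
    linarith
  have h3 : ∑ l ∈ Iᶜ, z l * W l i ≤ 0 := by
    apply sum_nonpos
    intro l hl
    have hl' := mem_compl.1 hl
    apply mul_nonpos_of_nonneg_of_nonpos (hz0 l)
    rcases lt_trichotomy l i with h | h | h
    · have h4 := (hW l hl').2.1 i hi h
      rw [((hs l hl').1 h).neg_one_pow] at h4
      linarith
    · exact absurd (h ▸ hi) hl'
    · have h4 := (hW l hl').2.2 i hi h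
      rw [(((hs l hl').2 h).add_one).neg_one_pow] at h4
      linarith
  have := hz0 i
  linarith

/-- The invariant. -/
def IdleInv (s : AltSys k r) (j : ℕ) (I : Finset (Fin r)) : Prop :=
  I.card = k ∧ Gale I ∧ (∀ e : Fin r, e.val < j → e ∈ I) ∧ j ≤ k ∧
    ∃ u, s.Bas I u ∧ ∀ i ∈ I, j ≤ i.val → 0 ≤ u i

/-- The invariant in an active phase. -/
def ActInv (s : AltSys k r) (j : ℕ) (I : Finset (Fin r)) : Prop :=
  I.card = k ∧ Gale I ∧ (∀ e : Fin r, e.val < j → e ∈ I) ∧ j ≤ k ∧ Even (k - j) ∧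
    ∃ hj : j < r, (⟨j, hj⟩ : Fin r) ∉ I ∧ ∃ v ∈ s.S,
      (∀ i ∉ I, i ≠ ⟨j, hj⟩ → v i = 0) ∧ v ⟨j, hj⟩ ≤ 0 ∧ ∀ i, (⟨j, hj⟩ : Fin r) < i → 0 ≤ v i

theorem idle_keep {j : ℕ} {I : Finset (Fin r)} (hinv : s.IdleInv (j + 1) I) (hj : j < r)
    {u : Fin r → ℝ} (hu : s.Bas I u) (h0 : 0 ≤ u ⟨j, hj⟩) : s.IdleInv j I := by
  obtain ⟨hI, hG, hpre, hjk, u', hu', hpos⟩ := hinv
  have huu : u = u' := bas_unique hI hu hu'
  subst huu
  refine ⟨hI, hG, fun e he => hpre e (by omega), by omega, u, hu, ?_⟩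
  intro i hi hji
  rcases Nat.lt_or_ge j i.val with h | h
  · exact hpos i hi (by omega)
  · have : i = ⟨j, hj⟩ := Fin.ext (by simp; omega)
    rw [this]
    exact h0

theorem idle_odd {j : ℕ} {I : Finset (Fin r)} (hinv : s.IdleInv (j + 1) I) (hj : j < r)
    {u : Fin r → ℝ} (hu : s.Bas I u) (h0 : u ⟨j, hj⟩ < 0) (hodd : Odd (k - j)) :
    ¬ s.Feasible := by
  obtain ⟨hI, hG, hpre, hjk, -⟩ := hinv
  have hab := above_prefix hI hj hpre
  refine infeas hI hG hu (hpre _ (by simp)) h0 ?_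
  intro l hl
  constructor
  · intro h
    have : l.val < j := h
    exact absurd (hpre l (by omega)) hl
  · intro _
    rw [Nat.even_iff]
    rw [Nat.odd_iff] at hodd
    omega

theorem idle_full {j : ℕ} {I : Finset (Fin r)} (hinv : s.IdleInv (j + 1) I) (hj : j < r)
    {u : Fin r → ℝ} (hu : s.Bas I u) (h0 : u ⟨j, hj⟩ < 0)
    (hfull : ∀ l, (⟨j, hj⟩ : Fin r) < l → l ∈ I) : ¬ s.Feasible := by
  obtain ⟨hI, hG, hpre, hjk, -⟩ := hinv
  refine infeas hI hG hu (hpre _ (by simp)) h0 ?_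
  intro l hl
  constructor
  · intro h
    have : l.val < j := h
    exact absurd (hpre l (by omega)) hl
  · intro h
    exact absurd (hfull l h) hl

theorem idle_enter {j : ℕ} {I : Finset (Fin r)} (hinv : s.IdleInv (j + 1) I) (hj : j < r)
    {u : Fin r → ℝ} (hu : s.Bas I u) (h0 : u ⟨j, hj⟩ < 0)
    (heven : Even (k - j)) {q : Fin r} (hq : NextFree I ⟨j, hj⟩ q) :
    s.ActInv j (insert q (I.erase ⟨j, hj⟩)) ∧ pot I + 2 ≤ pot (insert q (I.erase ⟨j, hj⟩)) := by
  obtain ⟨hI, hG, hpre, hjk, u', hu', hpos⟩ := hinv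
  have hab := above_prefix hI hj hpre
  have hodd : Odd (above I ⟨j, hj⟩) := by
    rw [Nat.odd_iff]
    rw [Nat.even_iff] at heven
    omega
  have hmem : (⟨j, hj⟩ : Fin r) ∈ I := hpre _ (by simp)
  have hs := swap hI hG hmem hodd hq
  have huu : u = u' := bas_unique hI hu hu'
  subst huu
  refine ⟨⟨hs.1, hs.2.1, ?_, by omega, heven, hj, ?_, u, hu.1, ?_, h0.le, ?_⟩, hs.2.2⟩
  · intro e he
    refine mem_insert_of_mem (mem_erase.2 ⟨?_, hpre e (by omega)⟩)
    intro h
    rw [h] at he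
    simp at he
  · intro h
    rcases mem_insert.1 h with h | h
    · exact absurd hq.1 (h ▸ lt_irrefl _)
    · exact absurd h (notMem_erase _ _)
  · intro i hi hij
    apply hu.2 i
    intro h
    exact hi (mem_insert_of_mem (mem_erase.2 ⟨hij, h⟩))
  · intro i hi
    have hi' : j < i.val := hi
    by_cases h : i ∈ I
    · exact hpos i h (by omega)
    · rw [hu.2 i h]

/-- `i` may leave: the basic solution for `I` is negative at `i`, and the basic solution for
`I`, with `i` replaced by `j`, is nonnegative after `j`. -/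
def Leave (s : AltSys k r) (j : ℕ) (hj : j < r) (I : Finset (Fin r)) (i : Fin r) : Prop :=
  i ∈ I ∧ (⟨j, hj⟩ : Fin r) < i ∧ Odd (above I i) ∧ (∃ u, s.Bas I u ∧ u i < 0) ∧
    ∃ v, s.Bas (insert ⟨j, hj⟩ (I.erase i)) v ∧ ∀ e ∈ I, (⟨j, hj⟩ : Fin r) < e → 0 ≤ v e

theorem sign_dir {I : Finset (Fin r)} (hI : I.card = k) (hG : Gale I) {l : Fin r} (hl : l ∉ I)
    {w : Fin r → ℝ} (hw : s.Dir I l w) {i : Fin r} (hi : i ∈ I) (hli : l < i) :
    (w i < 0 ↔ Odd (above I i)) ∧ (¬ w i < 0 → 0 < w i) := by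
  obtain ⟨w', h1, h2, -⟩ := dir_exists (s := s) hI hG hl
  have : w = w' := dir_unique hI hw h1
  subst this
  have h3 := h2 i hi hli
  rcases Nat.even_or_odd (above I i) with h | h
  · rw [h.neg_one_pow, one_mul] at h3
    refine ⟨⟨fun h4 => absurd h3 (not_lt.2 h4.le), fun h4 => ?_⟩, fun _ => h3⟩
    exact absurd h4 (Nat.not_odd_iff_even.2 h)
  · rw [h.neg_one_pow] at h3
    exact ⟨⟨fun _ => h, fun _ => by linarith⟩, fun h4 => absurd (by linarith) h4⟩

/-- the basic solution for the set with `i` replaced by `J` -/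
theorem shifted {I : Finset (Fin r)} {J i : Fin r} {u w : Fin r → ℝ} (hu : s.Bas I u)
    (hw : s.Dir I J w) (hJ : J ∉ I) (hwi : w i ≠ 0) :
    s.Bas (insert J (I.erase i)) (u + (-(u i / w i)) • w) := by
  refine ⟨s.add_mem _ hu.1 _ (s.V.smul_mem _ hw.1), ?_⟩
  intro e he
  simp only [Pi.add_apply, Pi.smul_apply, smul_eq_mul]
  by_cases hei : e = i
  · rw [hei]
    have h9 := div_mul_cancel₀ (u i) hwi
    linarith
  · have heI : e ∉ I := fun h => he (mem_insert_of_mem (mem_erase.2 ⟨hei, h⟩))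
    have heJ : e ≠ J := fun h => he (h ▸ mem_insert_self _ _)
    rw [hu.2 e heI, hw.2.2 e heI heJ]
    ring

theorem act_pivot {j : ℕ} {I : Finset (Fin r)} (hinv : s.ActInv j I) (hj : j < r)
    {i q : Fin r} (hi : s.Leave j hj I i) (hq : NextFree I i q) :
    s.ActInv j (insert q (I.erase i)) ∧ pot I + 2 ≤ pot (insert q (I.erase i)) := by
  obtain ⟨hI, hG, hpre, hjk, heven, hj', hjI, -⟩ := hinv
  obtain ⟨hiI, hji, hodd, ⟨u, hu, hui⟩, v, hv, hvpos⟩ := hi
  have hs := swap hI hG hiI hodd hq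
  obtain ⟨w, hw, -⟩ := dir_exists (s := s) hI hG hjI
  have hwi : w i < 0 := (sign_dir hI hG hjI hw hiI hji).1.2 hodd
  have hcard : (insert (⟨j, hj⟩ : Fin r) (I.erase i)).card = k := by
    rw [card_insert_of_notMem fun h => hjI (mem_of_mem_erase h), card_erase_of_mem hiI, hI]
    have : 0 < I.card := card_pos.2 ⟨i, hiI⟩
    omega
  have hvv : v = u + (-(u i / w i)) • w := bas_unique hcard hv (shifted hu hw hjI hwi.ne)
  refine ⟨⟨hs.1, hs.2.1, ?_, hjk, heven, hj, ?_, v, hv.1, ?_, ?_, ?_⟩, hs.2.2⟩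
  · intro e he
    refine mem_insert_of_mem (mem_erase.2 ⟨?_, hpre e he⟩)
    intro h
    rw [h] at he
    have : j < i.val := hji
    omega
  · intro h
    rcases mem_insert.1 h with h | h
    · rw [h] at hji
      exact absurd (hji.trans hq.1) (lt_irrefl _)
    · exact hjI (mem_of_mem_erase h)
  · intro e he hej
    apply hv.2 e
    intro h
    rcases mem_insert.1 h with h | h
    · exact hej h
    · exact he (mem_insert_of_mem h)
  · rw [hvv]
    simp only [Pi.add_apply, Pi.smul_apply, smul_eq_mul]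
    rw [hu.2 _ hjI, hw.2.1]
    have := div_pos_of_neg_of_neg hui hwi
    linarith
  · intro e he
    by_cases heI : e ∈ I
    · exact hvpos e heI he
    · rw [hv.2 e]
      intro h
      rcases mem_insert.1 h with h | h
      · exact he.ne' h
      · exact heI (mem_of_mem_erase h)

theorem act_full {j : ℕ} {I : Finset (Fin r)} (hinv : s.ActInv j I) (hj : j < r)
    {i : Fin r} (hi : s.Leave j hj I i) (hfull : ∀ l, i < l → l ∈ I) : ¬ s.Feasible := by
  obtain ⟨hI, hG, hpre, hjk, heven, hj', hjI, -⟩ := hinv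
  obtain ⟨hiI, hji, hodd, ⟨u, hu, hui⟩, -⟩ := hi
  refine infeas hI hG hu hiI hui ?_
  intro l hl
  exact ⟨fun _ => hodd, fun h => absurd (hfull l h) hl⟩

/-- Either the phase is over, or some `i` may leave. -/
theorem act_or {j : ℕ} {I : Finset (Fin r)} (hinv : s.ActInv j I) (hj : j < r)
    {u : Fin r → ℝ} (hu : s.Bas I u) :
    (∀ i ∈ I, (⟨j, hj⟩ : Fin r) < i → Odd (above I i) → 0 ≤ u i) →
    ∀ i ∈ I, (⟨j, hj⟩ : Fin r) < i → 0 ≤ u i := by
  intro hall e he hje
  obtain ⟨hI, hG, hpre, hjk, heven, hj', hjI, v, hv, hv0, hvj, hvpos⟩ := hinv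
  obtain ⟨w, hw, -⟩ := dir_exists (s := s) hI hG hjI
  by_cases hodd : Odd (above I e)
  · exact hall e he hje hodd
  · have h1 : 0 < w e := (sign_dir hI hG hjI hw he hje).2 fun h =>
      hodd ((sign_dir hI hG hjI hw he hje).1.1 h)
    have hb : s.Bas I (v + (- v ⟨j, hj'⟩) • w) := by
      refine ⟨s.add_mem _ hv _ (s.V.smul_mem _ hw.1), ?_⟩
      intro e he
      simp only [Pi.add_apply, Pi.smul_apply, smul_eq_mul]
      by_cases heJ : e = ⟨j, hj'⟩
      · rw [heJ, hw.2.1]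
        ring
      · rw [hv0 e he heJ, hw.2.2 e he heJ]
        ring
    have h2 := bas_unique hI hu hb
    have h3 : u e = v e + (- v ⟨j, hj'⟩) * w e := by
      conv_lhs => rw [h2]
      simp
    have h4 := hvpos e hje
    have h5 : 0 ≤ (- v ⟨j, hj'⟩) * w e := mul_nonneg (by linarith) h1.le
    linarith

theorem act_back {j : ℕ} {I : Finset (Fin r)} (hinv : s.ActInv j I) (hj : j < r)
    {u : Fin r → ℝ} (hu : s.Bas I u)
    (h0 : ∀ i ∈ I, (⟨j, hj⟩ : Fin r) < i → Odd (above I i) → 0 ≤ u i) : s.IdleInv j I := by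
  have h1 := act_or hinv hj hu h0
  obtain ⟨hI, hG, hpre, hjk, heven, hj', hjI, -⟩ := hinv
  refine ⟨hI, hG, hpre, hjk, u, hu, ?_⟩
  intro i hi hji
  apply h1 i hi
  rcases Nat.lt_or_ge j i.val with h | h
  · exact h
  · have : i = ⟨j, hj'⟩ := Fin.ext (by simp; omega)
    rw [this] at hi
    exact absurd hi hjI

theorem exists_leave {j : ℕ} {I : Finset (Fin r)} (hinv : s.ActInv j I) (hj : j < r)
    {u : Fin r → ℝ} (hu : s.Bas I u)
    (h0 : ¬ ∀ i ∈ I, (⟨j, hj⟩ : Fin r) < i → Odd (above I i) → 0 ≤ u i) :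
    ∃ i, s.Leave j hj I i := by
  obtain ⟨hI, hG, hpre, hjk, heven, hj', hjI, v, hv, hv0, hvj, hvpos⟩ := hinv
  obtain ⟨w, hw, -⟩ := dir_exists (s := s) hI hG hjI
  obtain ⟨L, hL⟩ : ∃ L, L = I.filter (fun e => (⟨j, hj⟩ : Fin r) < e ∧ Odd (above I e) ∧ u e < 0) :=
    ⟨_, rfl⟩
  have hne : L.Nonempty := by
    push Not at h0
    obtain ⟨e, he, hje, hodd, hue⟩ := h0
    exact ⟨e, by rw [hL, mem_filter]; exact ⟨he, hje, hodd, hue⟩⟩
  obtain ⟨i, hiL, himax⟩ := exists_max_image L (fun e => u e / w e) hne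
  rw [hL, mem_filter] at hiL
  obtain ⟨hiI, hji, hodd, hui⟩ := hiL
  have hwi : w i < 0 := (sign_dir hI hG hjI hw hiI hji).1.2 hodd
  obtain ⟨J, hJ⟩ : ∃ J : Fin r, J = ⟨j, hj⟩ := ⟨_, rfl⟩
  have hb : s.Bas I (v + (- v ⟨j, hj'⟩) • w) := by
    refine ⟨s.add_mem _ hv _ (s.V.smul_mem _ hw.1), ?_⟩
    intro e he
    simp only [Pi.add_apply, Pi.smul_apply, smul_eq_mul]
    by_cases heJ : e = ⟨j, hj'⟩
    · rw [heJ, hw.2.1]
      ring
    · rw [hv0 e he heJ, hw.2.2 e he heJ]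
      ring
  have h2 := bas_unique hI hu hb
  obtain ⟨t, ht⟩ : ∃ t : ℝ, t = - v ⟨j, hj'⟩ := ⟨_, rfl⟩
  have hue : ∀ e, u e = v e + t * w e := by
    intro e
    conv_lhs => rw [h2]
    simp [ht]
  obtain ⟨θ, hθ⟩ : ∃ θ : ℝ, θ = u i / w i := ⟨_, rfl⟩
  have hθ0 : 0 < θ := by rw [hθ]; exact div_pos_of_neg_of_neg hui hwi
  have hθs : θ ≤ t := by
    rw [hθ, div_le_iff_of_neg hwi]
    have := hvpos i hji
    rw [hue i]
    linarith
  refine ⟨i, hiI, hji, hodd, ⟨u, hu, hui⟩, u + (-(u i / w i)) • w, shifted hu hw hjI hwi.ne, ?_⟩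
  intro e heI hje
  simp only [Pi.add_apply, Pi.smul_apply, smul_eq_mul]
  rw [← hθ]
  by_cases hwe : w e < 0
  · by_cases hue0 : u e < 0
    · have h1 := himax e (by
        rw [hL, mem_filter]
        exact ⟨heI, hje, (sign_dir hI hG hjI hw heI hje).1.1 hwe, hue0⟩)
      rw [← hθ, div_le_iff_of_neg hwe] at h1
      linarith
    · have : 0 ≤ θ * (- w e) := mul_nonneg hθ0.le (by linarith)
      linarith
  · have h1 : 0 < w e := (sign_dir hI hG hjI hw heI hje).2 hwe
    have h2 := hvpos e hje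
    rw [hue e]
    have : 0 ≤ (t - θ) * w e := mul_nonneg (by linarith) h1.le
    linarith

theorem feas_zero {I : Finset (Fin r)} (hinv : s.IdleInv 0 I) : s.Feasible := by
  obtain ⟨hI, hG, -, -, u, hu, hpos⟩ := hinv
  refine ⟨u, hu.1, fun t => ?_⟩
  by_cases ht : t ∈ I
  · exact hpos t ht (Nat.zero_le _)
  · rw [hu.2 t ht]

theorem inv_first (s : AltSys k r) (hk : k ≤ r) : s.IdleInv k (first k r) := by
  refine ⟨first_card hk, ?_, ?_, le_rfl, ?_⟩
  · intro l hl
    have : above (first k r) l = 0 := by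
      unfold above
      rw [card_eq_zero, filter_eq_empty_iff]
      intro e he
      unfold first at he hl
      rw [mem_filter] at he hl
      have h1 : ¬ l.val < k := fun h => hl ⟨mem_univ _, h⟩
      intro h2
      have h3 : l.val < e.val := h2
      have := he.2
      omega
    rw [this]
    exact Even.zero
  · intro e he
    unfold first
    exact mem_filter.2 ⟨mem_univ _, he⟩
  · obtain ⟨u, hu, hu0⟩ := s.basic (first k r) (first_card hk)
    refine ⟨u, ⟨hu, hu0⟩, ?_⟩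
    intro i hi hki
    unfold first at hi
    rw [mem_filter] at hi
    have := hi.2
    omega

end AltSys

end Run7.h380.TP
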